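import Pool.Agent.Helper57.SI.Stmts

set_option autoImplicit false

namespace Pool.Agent.Helper16.SI

open MeasureTheory Set Filter Topology
open Pool.Agent.Helper57.SI
open Pool.Agent.Helper57.QZ (Pr)

theorem osc_one (Λ A a b : ℝ) (hΛ : Λ ≠ 0) :
    ‖∫ t in a..b, Complex.exp (((t * Λ + A : ℝ) : ℂ) * Complex.I)‖ ≤ 2 / |Λ| := by
  have e : ∀ t : ℝ, Complex.exp (((t * Λ + A : ℝ) : ℂ) * Complex.I) =
      Complex.exp ((A : ℂ) * Complex.I) * Complex.exp (((Λ : ℂ) * Complex.I) * t) := by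
    intro t
    rw [← Complex.exp_add]
    congr 1
    push_cast
    ring
  have hc : ((Λ : ℂ) * Complex.I) ≠ 0 :=
    mul_ne_zero (Complex.ofReal_ne_zero.2 hΛ) Complex.I_ne_zero
  have n1 : ∀ x : ℝ, ‖Complex.exp (((Λ : ℂ) * Complex.I) * x)‖ = 1 := by
    intro x
    have : ((Λ : ℂ) * Complex.I) * x = ((Λ * x : ℝ) : ℂ) * Complex.I := by push_cast; ring
    rw [this, Complex.norm_exp_ofReal_mul_I]
  simp_rw [e]
  rw [intervalIntegral.integral_const_mul, integral_exp_mul_complex hc, norm_mul,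
    Complex.norm_exp_ofReal_mul_I, one_mul, norm_div, norm_mul, Complex.norm_I, mul_one,
    Complex.norm_real, Real.norm_eq_abs]
  apply div_le_div_of_nonneg_right _ (abs_nonneg _)
  refine (norm_sub_le _ _).trans ?_
  rw [n1, n1]
  norm_num

theorem st_OSC (hFR : ST_FR) : ST_OSC := by
  classical
  intro z K c α u H hH
  obtain ⟨S, hS⟩ : ∃ S : Finset (Pr z → ℤ),
    S = Fintype.piFinset (fun _ : Pr z => Finset.Icc (-(K : ℤ)) (K : ℤ)) := ⟨_, rfl⟩
  have hterm : ∀ (κ : Pr z → ℤ) (t : ℝ),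
      ∏ p : Pr z, ((c p (κ p) : ℂ) * Complex.exp
        ((((κ p : ℝ) * (t * Real.log ((p : ℕ) : ℝ) + α) : ℝ) : ℂ) * Complex.I)) =
      ((∏ p : Pr z, c p (κ p) : ℝ) : ℂ) * Complex.exp
        (((t * (∑ p : Pr z, (κ p : ℝ) * Real.log ((p : ℕ) : ℝ)) +
          α * ∑ p : Pr z, (κ p : ℝ) : ℝ) : ℂ) * Complex.I) := by
    intro κ t
    rw [Finset.prod_mul_distrib, ← Complex.exp_sum, Complex.ofReal_prod, ← Finset.sum_mul,
      ← Complex.ofReal_sum]
    congr 4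
    rw [Finset.mul_sum, Finset.mul_sum, ← Finset.sum_add_distrib]
    exact Finset.sum_congr rfl fun p _ => by ring
  have h1 : (∫ t in u..(u + H), ∏ p : Pr z, ∑ k ∈ Finset.Icc (-(K : ℤ)) (K : ℤ),
      (c p k : ℂ) * Complex.exp ((((k : ℝ) * (t * Real.log ((p : ℕ) : ℝ) + α) : ℝ) : ℂ) *
        Complex.I)) = ∑ κ ∈ S, ((∏ p : Pr z, c p (κ p) : ℝ) : ℂ) *
      ∫ t in u..(u + H), Complex.exp
        (((t * (∑ p : Pr z, (κ p : ℝ) * Real.log ((p : ℕ) : ℝ)) +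
          α * ∑ p : Pr z, (κ p : ℝ) : ℝ) : ℂ) * Complex.I) := by
    have h2 : ∀ t : ℝ, (∏ p : Pr z, ∑ k ∈ Finset.Icc (-(K : ℤ)) (K : ℤ),
        (c p k : ℂ) * Complex.exp ((((k : ℝ) * (t * Real.log ((p : ℕ) : ℝ) + α) : ℝ) : ℂ) *
        Complex.I)) = ∑ κ ∈ S, ((∏ p : Pr z, c p (κ p) : ℝ) : ℂ) * Complex.exp
        (((t * (∑ p : Pr z, (κ p : ℝ) * Real.log ((p : ℕ) : ℝ)) +
          α * ∑ p : Pr z, (κ p : ℝ) : ℝ) : ℂ) * Complex.I) := by
      intro t
      rw [Finset.prod_univ_sum, hS]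
      exact Finset.sum_congr rfl fun κ _ => hterm κ t
    simp_rw [h2]
    rw [intervalIntegral.integral_finsetSum]
    · refine Finset.sum_congr rfl fun κ _ => ?_
      rw [intervalIntegral.integral_const_mul]
    · intro κ _
      exact Continuous.intervalIntegrable (by fun_prop) _ _
  have h0 : (0 : Pr z → ℤ) ∈ S := by
    rw [hS, Fintype.mem_piFinset]
    intro p
    rw [Finset.mem_Icc, Pi.zero_apply]
    constructor <;> omega
  have h3 : ((∏ p : Pr z, c p ((0 : Pr z → ℤ) p) : ℝ) : ℂ) * (∫ t in u..(u + H), Complex.exp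
        (((t * (∑ p : Pr z, (((0 : Pr z → ℤ) p : ℤ) : ℝ) * Real.log ((p : ℕ) : ℝ)) +
          α * ∑ p : Pr z, (((0 : Pr z → ℤ) p : ℤ) : ℝ) : ℝ) : ℂ) * Complex.I)) =
      ((H * ∏ p : Pr z, c p 0 : ℝ) : ℂ) := by
    simp only [Pi.zero_apply, Int.cast_zero, zero_mul, Finset.sum_const_zero, mul_zero, add_zero,
      Complex.ofReal_zero, Complex.exp_zero, intervalIntegral.integral_const,
      add_sub_cancel_left]
    push_cast
    rw [Complex.real_smul, mul_one, mul_comm]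
  rw [h1, ← Finset.add_sum_erase S _ h0, h3, add_sub_cancel_left]
  refine (norm_sum_le _ _).trans ?_
  have h4 : ∀ κ ∈ S.erase 0, ‖((∏ p : Pr z, c p (κ p) : ℝ) : ℂ) *
      ∫ t in u..(u + H), Complex.exp
        (((t * (∑ p : Pr z, (κ p : ℝ) * Real.log ((p : ℕ) : ℝ)) +
          α * ∑ p : Pr z, (κ p : ℝ) : ℝ) : ℂ) * Complex.I)‖ ≤
      (∏ p : Pr z, |c p (κ p)|) * (2 * 4 ^ (K * z)) := by
    intro κ hκ
    obtain ⟨hκ0, hκS⟩ := Finset.mem_erase.1 hκ
    rw [hS, Fintype.mem_piFinset] at hκS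
    have h5 := hFR z K κ (fun p => by
      have := Finset.mem_Icc.1 (hκS p)
      rw [abs_le]
      exact this) hκ0
    have hpos : (0 : ℝ) < 4 ^ (K * z) := by positivity
    have h6 : 0 < |∑ p : Pr z, (κ p : ℝ) * Real.log ((p : ℕ) : ℝ)| :=
      lt_of_lt_of_le (by positivity) h5
    have h7 : (∑ p : Pr z, (κ p : ℝ) * Real.log ((p : ℕ) : ℝ)) ≠ 0 := abs_pos.1 h6
    rw [norm_mul, Complex.norm_real, Real.norm_eq_abs, Finset.abs_prod]
    apply mul_le_mul_of_nonneg_left _ (Finset.prod_nonneg fun p _ => abs_nonneg _)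
    refine (osc_one _ _ _ _ h7).trans ?_
    rw [div_le_iff₀ h6]
    rw [div_le_iff₀ hpos] at h5
    nlinarith
  refine (Finset.sum_le_sum h4).trans ?_
  have h8 : ∏ p : Pr z, ∑ k ∈ Finset.Icc (-(K : ℤ)) (K : ℤ), |c p k| =
      ∑ κ ∈ S, ∏ p : Pr z, |c p (κ p)| := by
    rw [Finset.prod_univ_sum, hS]
  rw [h8, ← Finset.sum_mul, mul_comm]
  apply mul_le_mul_of_nonneg_left _ (by positivity)
  exact Finset.sum_le_sum_of_subset_of_nonneg (Finset.erase_subset _ _)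
    fun κ _ _ => Finset.prod_nonneg fun p _ => abs_nonneg _

end Pool.Agent.Helper16.SI
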